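import Pool.Agent.W586.CS.Stm

/-!
Project CS, part KB: the perturbation is bounded.
-/

set_option autoImplicit false
open MvPolynomial

namespace Pool.Agent.W839.CS

open Pool.Agent.W586.CS

lemma fl_fl {d : ℕ} (j : Fin d) (I : Finset (Fin d)) : fl j (fl j I) = I := by
  unfold fl
  by_cases h : j ∈ I
  · simp [h, Finset.insert_erase]
  · simp [h]

lemma sg_sq {d : ℕ} (j : Fin d) (I : Finset (Fin d)) : sg j I ^ 2 = 1 := by
  unfold sg
  rw [← pow_mul, mul_comm, pow_mul]
  norm_num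

/-- the flip as an equivalence -/
def flE {d : ℕ} (j : Fin d) : Finset (Fin d) ≃ Finset (Fin d) :=
  ⟨fl j, fl j, fl_fl j, fl_fl j⟩

lemma eval_KK {d : ℕ} {ι : Type} [Fintype ι] (A : Fin d → Matrix ι ι ℝ) (f : V d ι)
    (x : Fin d → ℝ) (I : Finset (Fin d)) (a : ι) :
    eval x (KK A f I a) = -∑ j : Fin d, sg j I * ∑ b, A j a b * eval x (f (fl j I) b) := by
  have h : KK A f I a = -∑ j : Fin d, sg j I • ∑ b, A j a b • f (fl j I) b := by
    unfold KK
    rw [LinearMap.neg_apply, LinearMap.sum_apply]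
    simp only [Pi.neg_apply, Finset.sum_apply, LinearMap.comp_apply]
    rfl
  rw [h, map_neg, map_sum]
  congr 1
  refine Finset.sum_congr rfl fun j _ => ?_
  rw [MvPolynomial.smul_eval, map_sum]
  congr 1
  refine Finset.sum_congr rfl fun b _ => ?_
  rw [MvPolynomial.smul_eval]

theorem main : S_KB := by
  intro d ι _ g A
  refine ⟨(d : ℝ) * ∑ j : Fin d, ∑ a, ∑ b, (A j a b) ^ 2, by positivity, fun f => ?_⟩
  set κ : ℝ := (d : ℝ) * ∑ j : Fin d, ∑ a, ∑ b, (A j a b) ^ 2 with hκ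
  have key : ∀ x : Fin d → ℝ, ∑ I : Finset (Fin d), ∑ a, (eval x (KK A f I a)) ^ 2 ≤
      κ * ∑ I : Finset (Fin d), ∑ a, (eval x (f I a)) ^ 2 := by
    intro x
    have h1 : ∀ (I : Finset (Fin d)) (a : ι), (eval x (KK A f I a)) ^ 2 ≤
        (d : ℝ) * ∑ j : Fin d, (∑ b, (A j a b) ^ 2) * ∑ b, (eval x (f (fl j I) b)) ^ 2 := by
      intro I a
      rw [eval_KK, neg_sq]
      have h2 := sq_sum_le_card_mul_sum_sq (s := (Finset.univ : Finset (Fin d)))
        (f := fun j => sg j I * ∑ b, A j a b * eval x (f (fl j I) b))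
      rw [Finset.card_univ, Fintype.card_fin] at h2
      refine h2.trans (mul_le_mul_of_nonneg_left ?_ (Nat.cast_nonneg d))
      refine Finset.sum_le_sum fun j _ => ?_
      rw [mul_pow, sg_sq, one_mul]
      exact Finset.sum_mul_sq_le_sq_mul_sq _ _ _
    have h3 : ∀ j : Fin d, ∑ I : Finset (Fin d), ∑ b, (eval x (f (fl j I) b)) ^ 2 =
        ∑ I : Finset (Fin d), ∑ b, (eval x (f I b)) ^ 2 := fun j =>
      Equiv.sum_comp (flE j) (fun I => ∑ b, (eval x (f I b)) ^ 2)
    calc ∑ I : Finset (Fin d), ∑ a, (eval x (KK A f I a)) ^ 2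
        ≤ ∑ I : Finset (Fin d), ∑ a, (d : ℝ) * ∑ j : Fin d,
            (∑ b, (A j a b) ^ 2) * ∑ b, (eval x (f (fl j I) b)) ^ 2 :=
          Finset.sum_le_sum fun I _ => Finset.sum_le_sum fun a _ => h1 I a
      _ = ∑ a, ∑ j : Fin d, ∑ I : Finset (Fin d), (d : ℝ) *
            ((∑ b, (A j a b) ^ 2) * ∑ b, (eval x (f (fl j I) b)) ^ 2) := by
          rw [Finset.sum_comm]
          refine Finset.sum_congr rfl fun a _ => ?_
          rw [Finset.sum_comm]
          refine Finset.sum_congr rfl fun I _ => ?_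
          rw [Finset.mul_sum]
      _ = ∑ a, ∑ j : Fin d, (d : ℝ) *
            ((∑ b, (A j a b) ^ 2) * ∑ I : Finset (Fin d), ∑ b, (eval x (f I b)) ^ 2) := by
          refine Finset.sum_congr rfl fun a _ => Finset.sum_congr rfl fun j _ => ?_
          rw [← Finset.mul_sum, ← Finset.mul_sum, h3 j]
      _ = κ * ∑ I : Finset (Fin d), ∑ a, (eval x (f I a)) ^ 2 := by
          rw [hκ, Finset.sum_comm]
          simp only [← Finset.mul_sum, ← Finset.sum_mul]
          ring
  set q : MvPolynomial (Fin d) ℝ := κ • (∑ I : Finset (Fin d), ∑ a, f I a * f I a) -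
    ∑ I : Finset (Fin d), ∑ a, KK A f I a * KK A f I a with hq
  have h1 : ∀ x : Fin d → ℝ, 0 ≤ eval x q := by
    intro x
    rw [hq, map_sub, MvPolynomial.smul_eval, map_sum, map_sum, sub_nonneg]
    have h2 := key x
    simp only [map_sum, ← pow_two, map_pow]
    exact h2
  have h2 := g.nonneg q h1
  rw [hq, map_sub, map_smul, map_sum, map_sum, sub_nonneg] at h2
  simp only [map_sum] at h2
  exact h2

end Pool.Agent.W839.CS
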